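import Pool.Agent.MWT.Stmts

set_option autoImplicit false

/-!
# Row CVX (MP_23468a_al, squad MWT)
-/

namespace Pool.Agent.MWT.H34

open Pool.Agent.Helper14_MV Pool.Agent.Helper2_MV Pool.Agent.MVD Pool.Agent.MWT

private theorem nl_app (l l' : List ℕ) : nl (l ++ l') = nl l + nl l' := by
  unfold nl
  rw [List.filter_append, List.length_append]

private theorem nl_c0 (a : ℕ) (l : List ℕ) (h : a % 3 = 0) : nl (a :: l) = nl l := by
  unfold nl
  rw [List.filter_cons_of_neg]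
  simp [h]

private theorem nl_P6 (b : ℕ) : nl (P b 6) = 0 := by
  induction b with
  | zero => rfl
  | succ b ih =>
    have : P (b + 1) 6 = 6 :: P b 6 := rfl
    rw [this, nl_c0 _ _ (by norm_num), ih]

theorem cvx (h1 : LwcStmt) (h2 : CvaStmt) (h3 : CvbStmt) (h4 : CvdStmt) (h5 : CveStmt)
    (h6 : CvrStmt) : CvxStmt := by
  intro n m R c E B t b M N φ hcn hn hm hb hR hT hw hE3 hE6 hE0 e he hin
  obtain ⟨_, _, l3, _, _, l6, l7⟩ := h1 n m 1 b c hcn hn le_rfl hb
  have hL : Lw 1 b c = [] ++ 0 :: ((cp 0 c ++ 3 :: (cp 1 c ++ (cp 2 c ++ (P b 6 ++ cp 3 c)))) ++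
      0 :: (cp 4 c ++ 3 :: (cp 5 c ++ (cp 6 c ++ P b 6)))) := by
    simp [Lw, P]
  have h0L : (0 : ℕ) ∈ Lw 1 b c := by rw [hL]; simp
  have heL : e ∈ (Lw 1 b c).flatMap φ := List.mem_flatMap.2 ⟨0, h0L, hin⟩
  obtain ⟨⟨α, ω, hB0⟩, _⟩ := h2 n m R c E B t 1 b M N φ e hcn hn le_rfl hb hR hT hw he heL
  obtain ⟨b1, b2⟩ := h3 n m R c E B t 1 b M N φ e hcn hn le_rfl hb hR hT hw he heL
  have n0 := l6 0 (by norm_num)
  have n1 := l6 1 (by norm_num)
  have n2 := l6 2 (by norm_num)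
  have n3 := l6 3 (by norm_num)
  have n4 := l6 4 (by norm_num)
  have hX : nl (cp 0 c ++ 3 :: (cp 1 c ++ (cp 2 c ++ (P b 6 ++ cp 3 c)))) = 4 * m := by
    rw [nl_app, nl_c0 _ _ (by norm_num), nl_app, nl_app, nl_app, nl_P6, n0, n1, n2, n3]
    ring
  have hCv : Cv m E (B 0) φ α [] (cp 0 c ++ 3 :: (cp 1 c ++ (cp 2 c ++ (P b 6 ++ cp 3 c))))
      (cp 4 c ++ 3 :: (cp 5 c ++ (cp 6 c ++ P b 6))) ω 0 e := by
    refine ⟨?_, ?_, ?_, ?_, hX, by norm_num, he, hin⟩
    · rw [← hL]; exact hB0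
    · rw [← hL]; exact b1
    · rw [← hL]; exact b2
    · rw [← hL]; exact l3
  -- local letters
  have hloc : ∀ k, k < 7 → ∀ p' q' : List ℕ, Lw 1 b c = p' ++ (cp k c ++ q') → ∀ f, E f →
      ∀ s ∈ cp k c, s % 3 = 0 → f ∉ φ s := by
    intro k hk p' q' hpq f hf s hs hs3
    obtain ⟨_, U, V, hUV⟩ := l7 k hk s hs hs3
    refine h5 m (R7 R) E B t φ (α ++ (p' ++ U).flatMap φ) ((V ++ q').flatMap φ ++ ω) s f hm hT hf
      (b1 s (by rw [hpq]; simp [hs]) hs3) ?_
    rw [hB0, hpq, hUV]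
    simp [List.flatMap_append]
  have key : ∀ f, E f → f ≠ e → 2 ≤ dist e f → (E 0 → 2 ≤ b) → False := by
    intro f hf hfe hd hE02
    obtain ⟨_, d2, d3⟩ := h4 m (R7 R) E B t φ α _ _ _ ω 0 e f hm hT hCv hf hfe
    obtain ⟨s, hsX, hfs⟩ := List.mem_flatMap.1 d2
    have hs3 := d3 s hsX hfs
    have hsplit : s ∈ cp 0 c ∨ s = 3 ∨ s ∈ cp 1 c ∨ s ∈ cp 2 c ∨ s = 6 ∨ s ∈ cp 3 c := by
      simp only [List.mem_append, List.mem_cons] at hsX
      rcases hsX with h | h | h | h | h | h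
      · exact Or.inl h
      · exact Or.inr (Or.inl h)
      · exact Or.inr (Or.inr (Or.inl h))
      · exact Or.inr (Or.inr (Or.inr (Or.inl h)))
      · exact Or.inr (Or.inr (Or.inr (Or.inr (Or.inl (List.eq_of_mem_replicate h)))))
      · exact Or.inr (Or.inr (Or.inr (Or.inr (Or.inr h))))
    rcases hsplit with h | h | h | h | h | h
    · exact hloc 0 (by norm_num) [0] _ (by rw [hL]; simp; rfl) f hf s h hs3 hfs
    · subst h
      have := (h6 m (R7 R) E B t φ α [] (cp 0 c) (cp 1 c ++ (cp 2 c ++ (P b 6 ++ cp 3 c)))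
        (cp 4 c) (cp 5 c ++ (cp 6 c ++ P b 6)) ω 0 e f 3 hm hT hCv hf hfe (by norm_num) hfs).2
      rw [n4] at this
      have h2m : 2 * m ≤ dist e f * m := Nat.mul_le_mul_right m hd
      omega
    · exact hloc 1 (by norm_num) (0 :: (cp 0 c ++ [3])) _ (by rw [hL]; simp; rfl) f hf s h hs3 hfs
    · exact hloc 2 (by norm_num) (0 :: (cp 0 c ++ 3 :: cp 1 c)) _ (by rw [hL]; simp; rfl)
        f hf s h hs3 hfs
    · subst h
      rcases Nat.lt_or_ge b 2 with hb2 | hb2
      · have hb1 : b = 1 := by omega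
        subst hb1
        have e1 : cp 0 c ++ 3 :: (cp 1 c ++ (cp 2 c ++ (P 1 6 ++ cp 3 c))) =
            (cp 0 c ++ 3 :: (cp 1 c ++ cp 2 c)) ++ 6 :: cp 3 c := by simp [P]
        have e2 : cp 4 c ++ 3 :: (cp 5 c ++ (cp 6 c ++ P 1 6)) =
            (cp 4 c ++ 3 :: (cp 5 c ++ cp 6 c)) ++ 6 :: [] := by simp [P]
        have hCv2 := hCv
        rw [e1, e2] at hCv2
        have := (h6 m (R7 R) E B t φ α [] _ _ _ _ ω 0 e f 6 hm hT hCv2 hf hfe (by norm_num) hfs).1
        rw [nl_app, nl_c0 _ _ (by norm_num), nl_app, n0, n1, n2] at this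
        have hd2 : dist e f ≤ 2 := by
          have hne0 : e ≠ 0 := fun h => hE0 rfl (h ▸ he)
          have hnf0 : f ≠ 0 := fun h => hE0 rfl (h ▸ hf)
          rcases hT.th e he with h | h | h
          · exact absurd h hne0
          · rcases hT.th f hf with h' | h' | h'
            · exact absurd h' hnf0
            · exact absurd (h'.trans h.symm) hfe
            · subst h; subst h'; decide
          · rcases hT.th f hf with h' | h' | h'
            · exact absurd h' hnf0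
            · subst h; subst h'; decide
            · exact absurd (h'.trans h.symm) hfe
        have h2m : 2 * m ≤ (4 - dist e f) * m := Nat.mul_le_mul_right m (by omega)
        omega
      · obtain ⟨b', rfl⟩ : ∃ b', b = b' + 2 := ⟨b - 2, by omega⟩
        have htw := hT.tw f hf
        have hP : P (b' + 2) 6 = 6 :: 6 :: P b' 6 := rfl
        have hpos : 0 < (φ 6).count f := List.count_pos_iff.2 hfs
        rw [hB0, hL, hP] at htw
        simp only [List.nil_append, List.flatMap_append, List.flatMap_cons, List.count_append]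
          at htw
        omega
    · exact hloc 3 (by norm_num) (0 :: (cp 0 c ++ 3 :: (cp 1 c ++ (cp 2 c ++ P b 6)))) _
        (by rw [hL]; simp; rfl) f hf s h hs3 hfs
  have hE02 : E 0 → 2 ≤ b := by
    intro h
    by_contra hlt
    exact hE0 (by omega) h
  rcases hT.th e he with h | h | h
  · subst h; exact key 6 hE6 (by norm_num) (by decide) hE02
  · subst h; exact key 6 hE6 (by norm_num) (by decide) hE02
  · subst h; exact key 3 hE3 (by norm_num) (by decide) hE02

end Pool.Agent.MWT.H34
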